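import Mathlib
import Pool.Agent.Results.MP_d1bfe9_gt.SardFailsDimFour

set_option autoImplicit false
set_option linter.unusedSectionVars false

/-! Products of distributions and their singular horizontal paths. -/

namespace Pool.Agent.Y469.SD

open Set MeasureTheory Filter Topology
open scoped ContDiff
open Pool.Agent.Results.MP_d1bfe9_gt.SardFailsDimFour

noncomputable section

variable {V W : Type} [NormedAddCommGroup V] [NormedSpace ℝ V] [NormedAddCommGroup W]
  [NormedSpace ℝ W] {k l : ℕ}

/-- the product frame -/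
def pf (X : Fin k → V → V) (Y : Fin l → W → W) : Fin (k + l) → V × W → V × W :=
  Fin.addCases (fun i p => (X i p.1, 0)) (fun j p => (0, Y j p.2))

variable {X : Fin k → V → V} {Y : Fin l → W → W}

lemma pf_left (i : Fin k) : pf X Y (Fin.castAdd l i) = fun p => (X i p.1, 0) := by
  simp [pf]

lemma pf_right (j : Fin l) : pf X Y (Fin.natAdd k j) = fun p => (0, Y j p.2) := by
  simp [pf]

lemma frame (hX : IsSmoothFrame X) (hY : IsSmoothFrame Y) : IsSmoothFrame (pf X Y) := by
  constructor
  · intro i
    refine Fin.addCases (fun i => ?_) (fun j => ?_) i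
    · rw [pf_left]
      exact ((hX.1 i).comp contDiff_fst).prodMk contDiff_const
    · rw [pf_right]
      exact contDiff_const.prodMk ((hY.1 j).comp contDiff_snd)
  · intro p
    rw [Fintype.linearIndependent_iff]
    intro g hg
    rw [Fin.sum_univ_add] at hg
    simp only [pf_left, pf_right] at hg
    have h1 := congrArg Prod.fst hg
    have h2 := congrArg Prod.snd hg
    simp only [Prod.fst_add, Prod.snd_add, Prod.fst_sum, Prod.snd_sum, Prod.smul_fst,
      Prod.smul_snd, smul_zero, Finset.sum_const_zero, add_zero, zero_add, Prod.fst_zero,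
      Prod.snd_zero] at h1 h2
    have h3 := Fintype.linearIndependent_iff.1 (hX.2 p.1) _ h1
    have h4 := Fintype.linearIndependent_iff.1 (hY.2 p.2) _ h2
    intro i
    exact Fin.addCases h3 h4 i

lemma smooth_br (hX : ∀ i, ContDiff ℝ ∞ (X i)) {A : V → V} (h : IsIteratedBracket X A) :
    ContDiff ℝ ∞ A := by
  induction h with
  | basic i => exact hX i
  | bracket _ _ h1 h2 => exact h1.lieBracket_vectorField h2 (by simp)

lemma br_left (hX : ∀ i, ContDiff ℝ ∞ (X i)) {A : V → V} (h : IsIteratedBracket X A) :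
    IsIteratedBracket (pf X Y) (fun p => (A p.1, 0)) := by
  induction h with
  | basic i => rw [← pf_left (Y := Y)]; exact .basic _
  | @bracket A B hA hB h1 h2 =>
    have e : (fun p : V × W => ((VectorField.lieBracket ℝ A B p.1, 0) : V × W)) =
        VectorField.lieBracket ℝ (fun p : V × W => ((A p.1, 0) : V × W))
          (fun p : V × W => ((B p.1, 0) : V × W)) := by
      funext p
      have hA' := ((smooth_br hX hA).differentiable (by simp) p.1).hasFDerivAt
      have hB' := ((smooth_br hX hB).differentiable (by simp) p.1).hasFDerivAt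
      have a1 : HasFDerivAt (fun p : V × W => ((A p.1, 0) : V × W)) _ p :=
        (hA'.comp p hasFDerivAt_fst).prodMk (hasFDerivAt_const (0 : W) p)
      have b1 : HasFDerivAt (fun p : V × W => ((B p.1, 0) : V × W)) _ p :=
        (hB'.comp p hasFDerivAt_fst).prodMk (hasFDerivAt_const (0 : W) p)
      unfold VectorField.lieBracket
      rw [a1.fderiv, b1.fderiv]
      simp
    rw [e]
    exact .bracket h1 h2

lemma br_right (hY : ∀ i, ContDiff ℝ ∞ (Y i)) {A : W → W} (h : IsIteratedBracket Y A) :
    IsIteratedBracket (pf X Y) (fun p => (0, A p.2)) := by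
  induction h with
  | basic i => rw [← pf_right (X := X)]; exact .basic _
  | @bracket A B hA hB h1 h2 =>
    have e : (fun p : V × W => ((0, VectorField.lieBracket ℝ A B p.2) : V × W)) =
        VectorField.lieBracket ℝ (fun p : V × W => ((0, A p.2) : V × W))
          (fun p : V × W => ((0, B p.2) : V × W)) := by
      funext p
      have hA' := ((smooth_br hY hA).differentiable (by simp) p.2).hasFDerivAt
      have hB' := ((smooth_br hY hB).differentiable (by simp) p.2).hasFDerivAt
      have a1 : HasFDerivAt (fun p : V × W => ((0, A p.2) : V × W)) _ p :=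
        (hasFDerivAt_const (0 : V) p).prodMk (hA'.comp p hasFDerivAt_snd)
      have b1 : HasFDerivAt (fun p : V × W => ((0, B p.2) : V × W)) _ p :=
        (hasFDerivAt_const (0 : V) p).prodMk (hB'.comp p hasFDerivAt_snd)
      unfold VectorField.lieBracket
      rw [a1.fderiv, b1.fderiv]
      simp
    rw [e]
    exact .bracket h1 h2

lemma tot (hXs : ∀ i, ContDiff ℝ ∞ (X i)) (hYs : ∀ i, ContDiff ℝ ∞ (Y i))
    (hX : TotallyNonholonomic X) (hY : TotallyNonholonomic Y) :
    TotallyNonholonomic (pf X Y) := by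
  intro q
  rw [eq_top_iff]
  rintro ⟨v, w⟩ -
  have h1 : (LinearMap.inl ℝ V W) v ∈ Submodule.span ℝ {v | ∃ Z, IsIteratedBracket (pf X Y) Z ∧
      Z q = v} := by
    have hv : v ∈ Submodule.span ℝ {v | ∃ Z, IsIteratedBracket X Z ∧ Z q.1 = v} := by
      rw [hX q.1]; trivial
    have h2 := Submodule.mem_map_of_mem (f := LinearMap.inl ℝ V W) hv
    rw [Submodule.map_span] at h2
    refine Submodule.span_mono ?_ h2
    rintro _ ⟨_, ⟨Z, hZ, rfl⟩, rfl⟩
    exact ⟨_, br_left hXs hZ, rfl⟩
  have h3 : (LinearMap.inr ℝ V W) w ∈ Submodule.span ℝ {v | ∃ Z, IsIteratedBracket (pf X Y) Z ∧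
      Z q = v} := by
    have hw : w ∈ Submodule.span ℝ {v | ∃ Z, IsIteratedBracket Y Z ∧ Z q.2 = v} := by
      rw [hY q.2]; trivial
    have h2 := Submodule.mem_map_of_mem (f := LinearMap.inr ℝ V W) hw
    rw [Submodule.map_span] at h2
    refine Submodule.span_mono ?_ h2
    rintro _ ⟨_, ⟨Z, hZ, rfl⟩, rfl⟩
    exact ⟨_, br_right hYs hZ, rfl⟩
  have h4 := Submodule.add_mem _ h1 h3
  simpa using h4

lemma intble (hX : ∀ i, ContDiff ℝ ∞ (X i)) (u : Control k) {γ : ℝ → V}
    (hγ : ContinuousOn γ (Icc 0 1)) {t : ℝ} (ht : t ∈ Icc (0 : ℝ) 1) :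
    IntervalIntegrable (fun s => ∑ i, u i s • X i (γ s)) volume 0 t := by
  have h1 : ∀ i ∈ Finset.univ, IntervalIntegrable (fun s => u i s • X i (γ s))
      volume 0 t := by
    intro i _
    have h0 : IntervalIntegrable (u i) volume 0 t :=
      Pool.Agent.Results.MP_77ffad_gt.NoRegularValue.intervalIntegrable_Lp (u i) ht
    apply h0.smul_continuousOn
    rw [uIcc_of_le ht.1]
    exact (hX i).continuous.comp_continuousOn (hγ.mono (Icc_subset_Icc le_rfl ht.2))
  have h2 := IntervalIntegrable.sum _ h1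
  have e : (fun s => ∑ i, u i s • X i (γ s)) = ∑ i, fun s => u i s • X i (γ s) := by
    funext s
    rw [Finset.sum_apply]
  rw [e]
  exact h2

/-- the two parts of a control of the product -/
def pl : Control (k + l) →L[ℝ] Control k :=
  ContinuousLinearMap.pi fun i => ContinuousLinearMap.proj (Fin.castAdd l i)

def pr : Control (k + l) →L[ℝ] Control l :=
  ContinuousLinearMap.pi fun j => ContinuousLinearMap.proj (Fin.natAdd k j)

lemma pl_apply (w : Control (k + l)) (i : Fin k) :
    (pl : Control (k + l) →L[ℝ] Control k) w i = w (Fin.castAdd l i) := rfl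

lemma pr_apply (w : Control (k + l)) (j : Fin l) :
    (pr : Control (k + l) →L[ℝ] Control l) w j = w (Fin.natAdd k j) := rfl

variable [CompleteSpace V] [CompleteSpace W]

lemma integral_pf (hX : ∀ i, ContDiff ℝ ∞ (X i)) (hY : ∀ i, ContDiff ℝ ∞ (Y i))
    (w : Control (k + l)) {γ : ℝ → V × W} (hγ : ContinuousOn γ (Icc 0 1))
    {t : ℝ} (ht : t ∈ Icc (0 : ℝ) 1) :
    ∫ s in (0 : ℝ)..t, ∑ i, w i s • pf X Y i (γ s) =
      (∫ s in (0 : ℝ)..t, ∑ i, (pl : Control (k + l) →L[ℝ] Control k) w i s • X i (γ s).1,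
        ∫ s in (0 : ℝ)..t, ∑ j, (pr : Control (k + l) →L[ℝ] Control l) w j s • Y j (γ s).2) := by
  have h1 := intble hX ((pl : Control (k + l) →L[ℝ] Control k) w)
    (continuous_fst.comp_continuousOn hγ) ht
  have h2 := intble hY ((pr : Control (k + l) →L[ℝ] Control l) w)
    (continuous_snd.comp_continuousOn hγ) ht
  have e : (fun s => ∑ i, w i s • pf X Y i (γ s)) = fun s =>
      ((∑ i, (pl : Control (k + l) →L[ℝ] Control k) w i s • X i (γ s).1,
        ∑ j, (pr : Control (k + l) →L[ℝ] Control l) w j s • Y j (γ s).2) : V × W) := by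
    funext s
    rw [Fin.sum_univ_add]
    simp only [pf_left, pf_right, pl_apply, pr_apply]
    refine Prod.ext ?_ ?_
    · simp only [Prod.fst_add, Prod.fst_sum, Prod.smul_fst, smul_zero, Finset.sum_const_zero,
        add_zero]
    · simp only [Prod.snd_add, Prod.snd_sum, Prod.smul_snd, smul_zero, Finset.sum_const_zero,
        zero_add]
  rw [e]
  rw [intervalIntegral.integral_of_le ht.1, intervalIntegral.integral_of_le ht.1,
    intervalIntegral.integral_of_le ht.1]
  exact integral_pair ((intervalIntegrable_iff_integrableOn_Ioc_of_le ht.1).1 h1)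
    ((intervalIntegrable_iff_integrableOn_Ioc_of_le ht.1).1 h2)

lemma hor_iff (hX : ∀ i, ContDiff ℝ ∞ (X i)) (hY : ∀ i, ContDiff ℝ ∞ (Y i)) (x : V) (y : W)
    (w : Control (k + l)) (γ : ℝ → V × W) :
    IsHorizontal (pf X Y) (x, y) w γ ↔
      IsHorizontal X x ((pl : Control (k + l) →L[ℝ] Control k) w) (fun s => (γ s).1) ∧
      IsHorizontal Y y ((pr : Control (k + l) →L[ℝ] Control l) w) (fun s => (γ s).2) := by
  constructor
  · rintro ⟨hc, h⟩
    refine ⟨⟨continuous_fst.comp_continuousOn hc, fun t ht => ?_⟩,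
      ⟨continuous_snd.comp_continuousOn hc, fun t ht => ?_⟩⟩
    · have := congrArg Prod.fst (h t ht)
      rw [integral_pf hX hY w hc ht] at this
      exact this
    · have := congrArg Prod.snd (h t ht)
      rw [integral_pf hX hY w hc ht] at this
      exact this
  · rintro ⟨⟨hc1, h1⟩, ⟨hc2, h2⟩⟩
    have hc : ContinuousOn γ (Icc 0 1) := by
      have := hc1.prodMk hc2
      exact this
    refine ⟨hc, fun t ht => ?_⟩
    rw [integral_pf hX hY w hc ht]
    exact Prod.ext (h1 t ht) (h2 t ht)

lemma end_iff (hX : ∀ i, ContDiff ℝ ∞ (X i)) (hY : ∀ i, ContDiff ℝ ∞ (Y i)) (x : V) (y : W)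
    (w : Control (k + l)) (q : V × W) :
    EndRel (pf X Y) (x, y) w q ↔
      EndRel X x ((pl : Control (k + l) →L[ℝ] Control k) w) q.1 ∧
      EndRel Y y ((pr : Control (k + l) →L[ℝ] Control l) w) q.2 := by
  constructor
  · rintro ⟨γ, h, rfl⟩
    obtain ⟨h1, h2⟩ := (hor_iff hX hY x y w γ).1 h
    exact ⟨⟨_, h1, rfl⟩, ⟨_, h2, rfl⟩⟩
  · rintro ⟨⟨γ, h1, e1⟩, ⟨η, h2, e2⟩⟩
    exact ⟨fun s => (γ s, η s), (hor_iff hX hY x y w _).2 ⟨h1, h2⟩, Prod.ext e1 e2⟩

/-- a control `u` leading from the origin to `q`, near which the end-point map is `E`, with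
differential `L` at `u` -/
structure Datum {V : Type} [NormedAddCommGroup V] [NormedSpace ℝ V] {k : ℕ}
    (X : Fin k → V → V) (q : V) (u : Control k) (E : Control k → V)
    (L : Control k →L[ℝ] V) : Prop where
  reach : EndRel X 0 u q
  graph : ∀ᶠ v in 𝓝 u, ∀ y, EndRel X 0 v y ↔ y = E v
  deriv : HasFDerivAt E L u

lemma Datum.prod (hX : ∀ i, ContDiff ℝ ∞ (X i)) (hY : ∀ i, ContDiff ℝ ∞ (Y i))
    {q : V} {u : Control k} {E : Control k → V} {L : Control k →L[ℝ] V}
    {q' : W} {u' : Control l} {E' : Control l → W} {L' : Control l →L[ℝ] W}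
    (h : Datum X q u E L) (h' : Datum Y q' u' E' L') :
    Datum (pf X Y) (q, q') (Fin.append u u' : Control (k + l))
      (fun v => (E ((pl : Control (k + l) →L[ℝ] Control k) v),
        E' ((pr : Control (k + l) →L[ℝ] Control l) v)))
      ((L.comp (pl : Control (k + l) →L[ℝ] Control k)).prod
        (L'.comp (pr : Control (k + l) →L[ℝ] Control l))) := by
  have e1 : (pl : Control (k + l) →L[ℝ] Control k) (Fin.append u u') = u := by
    funext i
    rw [pl_apply, Fin.append_left]
  have e2 : (pr : Control (k + l) →L[ℝ] Control l) (Fin.append u u') = u' := by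
    funext i
    rw [pr_apply, Fin.append_right]
  refine ⟨?_, ?_, ?_⟩
  · have := (end_iff hX hY 0 0 (Fin.append u u' : Control (k + l)) (q, q')).2
      (by rw [e1, e2]; exact ⟨h.reach, h'.reach⟩)
    exact this
  · have t1 : Tendsto (pl : Control (k + l) →L[ℝ] Control k)
        (𝓝 (Fin.append u u' : Control (k + l))) (𝓝 u) := by
      have := (pl : Control (k + l) →L[ℝ] Control k).continuous.tendsto (Fin.append u u')
      rwa [e1] at this
    have t2 : Tendsto (pr : Control (k + l) →L[ℝ] Control l)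
        (𝓝 (Fin.append u u' : Control (k + l))) (𝓝 u') := by
      have := (pr : Control (k + l) →L[ℝ] Control l).continuous.tendsto (Fin.append u u')
      rwa [e2] at this
    filter_upwards [t1.eventually h.graph, t2.eventually h'.graph] with v h1 h2 y
    have h3 := end_iff hX hY 0 0 v y
    rw [show ((0 : V), (0 : W)) = 0 from rfl] at h3
    rw [h3, h1, h2]
    constructor
    · rintro ⟨a, b⟩
      exact Prod.ext a b
    · rintro rfl
      exact ⟨rfl, rfl⟩
  · have d1 : HasFDerivAt E L ((pl : Control (k + l) →L[ℝ] Control k) (Fin.append u u')) := by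
      rw [e1]; exact h.deriv
    have d2 : HasFDerivAt E' L' ((pr : Control (k + l) →L[ℝ] Control l) (Fin.append u u')) := by
      rw [e2]; exact h'.deriv
    exact (d1.comp (Fin.append u u' : Control (k + l))
      (pl : Control (k + l) →L[ℝ] Control k).hasFDerivAt).prodMk
      (d2.comp (Fin.append u u' : Control (k + l))
        (pr : Control (k + l) →L[ℝ] Control l).hasFDerivAt)

lemma not_surj {L : Control k →L[ℝ] V} (hL : ¬ Function.Surjective L) (L' : Control l →L[ℝ] W) :
    ¬ Function.Surjective ((L.comp (pl : Control (k + l) →L[ℝ] Control k)).prod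
        (L'.comp (pr : Control (k + l) →L[ℝ] Control l))) := by
  intro h
  apply hL
  intro a
  obtain ⟨v, hv⟩ := h (a, 0)
  exact ⟨(pl : Control (k + l) →L[ℝ] Control k) v, congrArg Prod.fst hv⟩

end

end Pool.Agent.Y469.SD
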