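import Mathlib
import Pool.Agent.Y469.SD.Prod

set_option autoImplicit false
set_option linter.unusedSectionVars false

/-! The factors: Euclidean spaces and the Heisenberg group. -/

namespace Pool.Agent.Y469.SD

open Set MeasureTheory Filter Topology
open scoped ContDiff
open Pool.Agent.Results.MP_d1bfe9_gt.SardFailsDimFour
open Pool.Agent.Results.MP_77ffad_gt.NoRegularValue (hframe hframe_smooth Efun XX P J Phi1
  endpoint_iff exists_Lp exists_DPhi1 int_congr one_mem P_eq ae_Icc_of J_apply)

noncomputable section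

variable {n m : ℕ}

lemma hframe_lin (A : Fin n → (Fin n → ℝ) → (Fin m → ℝ)) (q : (Fin n → ℝ) × (Fin m → ℝ)) :
    LinearIndependent ℝ (fun i => hframe A i q) := by
  rw [Fintype.linearIndependent_iff]
  intro g hg i
  have := congrFun (congrArg Prod.fst hg) i
  rw [Prod.fst_sum, Finset.sum_apply, Finset.sum_eq_single i] at this
  · simpa [hframe] using this
  · intro b _ hb
    simp [hframe, hb.symm]
  · simp

lemma hframe_frame {A : Fin n → (Fin n → ℝ) → (Fin m → ℝ)} (hA : ∀ i, ContDiff ℝ ∞ (A i)) :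
    IsSmoothFrame (hframe A) := ⟨hframe_smooth hA, hframe_lin A⟩

lemma exists_deriv {A : Fin n → (Fin n → ℝ) → (Fin m → ℝ)} (hA : ∀ i, ContDiff ℝ ∞ (A i))
    (u : Control n) : ∃ L : Control n →L[ℝ] ((Fin n → ℝ) × (Fin m → ℝ)),
      HasFDerivAt (Efun A) L u := by
  have h1 : ∀ l : Fin m, ∀ i : Fin n, ∃ D : Control n →L[ℝ] ℝ,
      HasFDerivAt (Phi1 i (fun x => A i x l)) D u := by
    intro l i
    have hc : ContDiff ℝ ∞ (fun x => A i x l) := (contDiff_apply ℝ ℝ l).comp (hA i)
    obtain ⟨D, _, hD⟩ := exists_DPhi1 i hc u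
    exact ⟨D, hD⟩
  choose D hD using h1
  have h2 : HasFDerivAt (fun u : Control n => fun i => J (u i))
      (ContinuousLinearMap.pi fun i => J.comp (ContinuousLinearMap.proj i)) u :=
    (ContinuousLinearMap.pi fun i => J.comp (ContinuousLinearMap.proj i)).hasFDerivAt
  have h3 : HasFDerivAt (fun u : Control n => fun l => ∑ i, Phi1 i (fun x => A i x l) u)
      (ContinuousLinearMap.pi fun l => ∑ i, D l i) u := by
    rw [hasFDerivAt_pi]
    intro l
    have := HasFDerivAt.fun_sum (u := Finset.univ) fun i _ => hD l i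
    exact this
  exact ⟨_, h2.prodMk h3⟩

/-- data for all points which are values of `Efun` -/
lemma datum_hframe {A : Fin n → (Fin n → ℝ) → (Fin m → ℝ)} (hA : ∀ i, ContDiff ℝ ∞ (A i))
    (u : Control n) : ∃ L, Datum (hframe A) (Efun A u) u (Efun A) L := by
  obtain ⟨L, hL⟩ := exists_deriv hA u
  exact ⟨L, ⟨(endpoint_iff hA u _).2 rfl, Eventually.of_forall fun v y => endpoint_iff hA v y,
    hL⟩⟩

/-- controls with prescribed smooth velocities -/
lemma exists_control (x' : Fin n → ℝ → ℝ) (x : Fin n → ℝ → ℝ) (hx0 : ∀ i, x i 0 = 0)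
    (hx : ∀ i t, HasDerivAt (x i) (x' i t) t) (hx' : ∀ i, Continuous (x' i)) :
    ∃ u : Control n, (∀ i, u i =ᵐ[leb] x' i) ∧
      (∀ t ∈ Icc (0 : ℝ) 1, XX u t = fun i => x i t) ∧
      ∀ (i : Fin n) (c : (Fin n → ℝ) → ℝ), Phi1 i c u =
        ∫ s in (0:ℝ)..1, x' i s * c (fun i => x i s) := by
  choose u hu using fun i : Fin n => exists_Lp (hx' i)
  have hXX : ∀ t ∈ Icc (0 : ℝ) 1, XX u t = fun i => x i t := by
    intro t ht
    ext j
    have h1 : XX u t j = ∫ s in (0:ℝ)..t, x' j s := by
      show P (u j) t = _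
      rw [P_eq _ ht, intervalIntegral.integral_of_le ht.1, ← integral_Icc_eq_integral_Ioc]
      exact integral_congr_ae (ae_Icc_of (hu j) ht)
    rw [h1, intervalIntegral.integral_eq_sub_of_hasDerivAt (f := fun t => x j t)
      (fun s _ => hx j s) ((hx' j).intervalIntegrable _ _), hx0, sub_zero]
  refine ⟨u, hu, hXX, ?_⟩
  intro i c
  apply int_congr
  filter_upwards [hu i, ae_restrict_mem measurableSet_Icc] with s hs1 hs2
  rw [hs1, hXX s hs2]

/-- a distribution all of whose points are reached from the origin by good controls -/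
def Good {V : Type} [NormedAddCommGroup V] [NormedSpace ℝ V] {k : ℕ} (X : Fin k → V → V) : Prop :=
  IsSmoothFrame X ∧ TotallyNonholonomic X ∧ ∀ q, ∃ u E L, Datum X q u E L

/-- the same with singular controls -/
def Sing {V : Type} [NormedAddCommGroup V] [NormedSpace ℝ V] {k : ℕ} (X : Fin k → V → V) : Prop :=
  IsSmoothFrame X ∧ TotallyNonholonomic X ∧ ∀ q, ∃ u E L, Datum X q u E L ∧
    ¬ Function.Surjective L

/-- the Euclidean frame -/
def zA (k : ℕ) : Fin k → (Fin k → ℝ) → (Fin 0 → ℝ) := fun _ _ => 0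

lemma good_euclid (k : ℕ) : Good (hframe (zA k)) := by
  have hA : ∀ i, ContDiff ℝ ∞ (zA k i) := fun i => contDiff_const
  refine ⟨hframe_frame hA, ?_, ?_⟩
  · intro q
    rw [eq_top_iff]
    rintro ⟨v, w⟩ -
    have h1 : (v, w) = ∑ i, v i • hframe (zA k) i q := by
      refine Prod.ext ?_ (Subsingleton.elim _ _)
      rw [Prod.fst_sum]
      funext j
      simp [hframe, Finset.sum_apply, Pi.single_apply]
    rw [h1]
    exact Submodule.sum_mem _ fun i _ => Submodule.smul_mem _ _
      (Submodule.subset_span ⟨_, .basic i, rfl⟩)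
  · intro q
    obtain ⟨u, hu, hXX, _⟩ := exists_control (n := k) (fun i _ => q.1 i) (fun i t => q.1 i * t)
      (fun i => by simp) (fun i t => by simpa using (hasDerivAt_id t).const_mul (q.1 i))
      (fun i => continuous_const)
    obtain ⟨L, hL⟩ := datum_hframe hA u
    have e : Efun (zA k) u = q := by
      refine Prod.ext ?_ (Subsingleton.elim _ _)
      funext i
      show P (u i) 1 = q.1 i
      have := congrFun (hXX 1 one_mem) i
      simpa [XX] using this
    exact ⟨u, _, L, e ▸ hL⟩

/-- the Heisenberg frame -/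
def hA1 : Fin 2 → (Fin 2 → ℝ) → (Fin 1 → ℝ) := fun i x _ => if i = 1 then x 0 else 0

lemma hA1_smooth (i : Fin 2) : ContDiff ℝ ∞ (hA1 i) := by
  rw [contDiff_pi]
  intro l
  unfold hA1
  by_cases h : i = 1
  · simp only [h, if_true]
    exact contDiff_apply ℝ ℝ 0
  · simp only [h, if_false]
    exact contDiff_const

lemma heis_bracket (q : (Fin 2 → ℝ) × (Fin 1 → ℝ)) :
    VectorField.lieBracket ℝ (hframe hA1 0) (hframe hA1 1) q = (0, fun _ => 1) := by
  have h0 : hframe hA1 0 = fun _ => ((Pi.single 0 1, 0) : (Fin 2 → ℝ) × (Fin 1 → ℝ)) := by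
    funext q
    refine Prod.ext rfl ?_
    funext l
    simp [hframe, hA1]
  have h1 : HasFDerivAt (hframe hA1 1) ((0 : _ →L[ℝ] (Fin 2 → ℝ)).prod
      (ContinuousLinearMap.pi fun _ : Fin 1 => (ContinuousLinearMap.proj (R := ℝ)
        (φ := fun _ : Fin 2 => ℝ) 0).comp (ContinuousLinearMap.fst ℝ (Fin 2 → ℝ) (Fin 1 → ℝ)))) q := by
    have h2 := (hasFDerivAt_const (Pi.single 1 1 : Fin 2 → ℝ) q).prodMk
      ((ContinuousLinearMap.pi fun _ : Fin 1 => (ContinuousLinearMap.proj (R := ℝ)
        (φ := fun _ : Fin 2 => ℝ) 0).comp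
          (ContinuousLinearMap.fst ℝ (Fin 2 → ℝ) (Fin 1 → ℝ))).hasFDerivAt (x := q))
    refine h2.congr_of_eventuallyEq (Eventually.of_forall fun p => ?_)
    refine Prod.ext rfl ?_
    funext l
    simp [hframe, hA1]
  unfold VectorField.lieBracket
  rw [h1.fderiv, h0]
  simp only [hasFDerivAt_const _ _ |>.fderiv]
  refine Prod.ext ?_ ?_
  · simp
  · funext l
    simp

lemma good_heis : Good (hframe hA1) := by
  refine ⟨hframe_frame hA1_smooth, ?_, ?_⟩
  · intro q
    rw [eq_top_iff]
    rintro ⟨v, w⟩ -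
    have h1 : (v, w) = v 0 • hframe hA1 0 q + v 1 • hframe hA1 1 q +
        (w 0 - v 1 * q.1 0) • (VectorField.lieBracket ℝ (hframe hA1 0) (hframe hA1 1) q) := by
      rw [heis_bracket]
      refine Prod.ext ?_ ?_
      · funext j
        fin_cases j <;> simp [hframe]
      · funext j
        fin_cases j
        simp [hframe, hA1]
    rw [h1]
    refine Submodule.add_mem _ (Submodule.add_mem _ (Submodule.smul_mem _ _ ?_)
      (Submodule.smul_mem _ _ ?_)) (Submodule.smul_mem _ _ ?_)
    · exact Submodule.subset_span ⟨_, .basic 0, rfl⟩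
    · exact Submodule.subset_span ⟨_, .basic 1, rfl⟩
    · exact Submodule.subset_span ⟨_, .bracket (.basic 0) (.basic 1), rfl⟩
  · intro q
    set a := q.1 0 with ha
    set b := q.1 1 with hb
    set d : ℝ := 15 * a * b + 5 * b - 30 * q.2 0 with hd
    obtain ⟨u, hu, hXX, hPhi⟩ := exists_control (n := 2)
      (fun i t => if i = 0 then a + (1 - 2 * t) else b + d * (1 - 6 * t + 6 * t ^ 2))
      (fun i t => if i = 0 then a * t + (t - t ^ 2) else b * t + d * (t - 3 * t ^ 2 + 2 * t ^ 3))
      (fun i => by split_ifs <;> simp)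
      (fun i t => by
        split_ifs
        · have h1 := ((hasDerivAt_id t).const_mul a).add ((hasDerivAt_id t).sub (hasDerivAt_pow 2 t))
          exact h1.congr_deriv (by simp)
        · have h1 := ((hasDerivAt_id t).const_mul b).add
            ((((hasDerivAt_id t).sub ((hasDerivAt_pow 2 t).const_mul 3)).add
              ((hasDerivAt_pow 3 t).const_mul 2)).const_mul d)
          exact h1.congr_deriv (by push_cast; ring))
      (fun i => by split_ifs <;> fun_prop)
    obtain ⟨L, hL⟩ := datum_hframe hA1_smooth u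
    have e : Efun hA1 u = q := by
      refine Prod.ext ?_ ?_
      · funext i
        show P (u i) 1 = q.1 i
        have := congrFun (hXX 1 one_mem) i
        fin_cases i
        · simpa [XX] using this
        · have h2 : P (u 1) 1 = b * 1 + d * (1 - 3 * 1 ^ 2 + 2 * 1 ^ 3) := by simpa [XX] using this
          show P (u 1) 1 = q.1 1
          rw [h2]
          ring
      · funext l
        fin_cases l
        show ∑ i, Phi1 i (fun x => hA1 i x 0) u = q.2 0
        rw [Fin.sum_univ_two, hPhi, hPhi]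
        have e0 : (∫ s in (0:ℝ)..1, (if (0 : Fin 2) = 0 then a + (1 - 2 * s) else
            b + d * (1 - 6 * s + 6 * s ^ 2)) * hA1 0 (fun i => if i = 0 then a * s + (s - s ^ 2)
              else b * s + d * (s - 3 * s ^ 2 + 2 * s ^ 3)) 0) = 0 := by
          simp [hA1]
        have e1 : (∫ s in (0:ℝ)..1, (if (1 : Fin 2) = 0 then a + (1 - 2 * s) else
            b + d * (1 - 6 * s + 6 * s ^ 2)) * hA1 1 (fun i => if i = 0 then a * s + (s - s ^ 2)
              else b * s + d * (s - 3 * s ^ 2 + 2 * s ^ 3)) 0) =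
            ∫ s in (0:ℝ)..1, (b + d * (1 - 6 * s + 6 * s ^ 2)) * (a * s + (s - s ^ 2)) := by
          simp [hA1]
        rw [e0, e1, zero_add]
        have h3 : ∀ s ∈ uIcc (0:ℝ) 1, HasDerivAt (fun s : ℝ =>
            (b * (a + 1) + d * (a + 1)) * s ^ 2 / 2 + (- b - 7 * d - 6 * d * a) * s ^ 3 / 3 +
            (12 * d + 6 * d * a) * s ^ 4 / 4 - 6 * d * s ^ 5 / 5)
            ((b + d * (1 - 6 * s + 6 * s ^ 2)) * (a * s + (s - s ^ 2))) s := by
          intro s _
          have h4 := ((((hasDerivAt_pow 2 s).const_mul (b * (a + 1) + d * (a + 1))).div_const 2).add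
            (((hasDerivAt_pow 3 s).const_mul (- b - 7 * d - 6 * d * a)).div_const 3)).add
            (((hasDerivAt_pow 4 s).const_mul (12 * d + 6 * d * a)).div_const 4)
          have h5 := h4.sub (((hasDerivAt_pow 5 s).const_mul (6 * d)).div_const 5)
          refine h5.congr_deriv ?_
          push_cast
          ring
        rw [intervalIntegral.integral_eq_sub_of_hasDerivAt h3
          (Continuous.intervalIntegrable (by fun_prop) _ _)]
        rw [hd]
        ring
    exact ⟨u, _, L, e ▸ hL⟩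

end

end Pool.Agent.Y469.SD
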