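import Mathlib
import Pool.Agent.Y469.SD.Fac

set_option autoImplicit false
set_option linter.unusedSectionVars false

/-! Transport of distributions along linear isomorphisms, and the assembly. -/

namespace Pool.Agent.Y469.SD

open Set MeasureTheory Filter Topology
open scoped ContDiff
open Pool.Agent.Results.MP_d1bfe9_gt.SardFailsDimFour

noncomputable section

variable {V W : Type} [NormedAddCommGroup V] [NormedSpace ℝ V] [NormedAddCommGroup W]
  [NormedSpace ℝ W] {k l : ℕ}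

/-- the transported frame -/
def tf (Φ : V ≃L[ℝ] W) (X : Fin k → V → V) : Fin k → W → W := fun i q => Φ (X i (Φ.symm q))

variable {X : Fin k → V → V} (Φ : V ≃L[ℝ] W)

lemma tf_frame (hX : IsSmoothFrame X) : IsSmoothFrame (tf Φ X) := by
  constructor
  · intro i
    exact Φ.contDiff.comp ((hX.1 i).comp Φ.symm.contDiff)
  · intro q
    have := (hX.2 (Φ.symm q)).map' Φ.toLinearEquiv.toLinearMap Φ.toLinearEquiv.ker
    exact this

lemma tf_br (hX : ∀ i, ContDiff ℝ ∞ (X i)) {A : V → V} (h : IsIteratedBracket X A) :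
    IsIteratedBracket (tf Φ X) (fun q => Φ (A (Φ.symm q))) := by
  induction h with
  | basic i => exact .basic i
  | @bracket A B hA hB h1 h2 =>
    have e : (fun q : W => Φ (VectorField.lieBracket ℝ A B (Φ.symm q))) =
        VectorField.lieBracket ℝ (fun q : W => Φ (A (Φ.symm q)))
          (fun q : W => Φ (B (Φ.symm q))) := by
      funext q
      have hA' := ((smooth_br hX hA).differentiable (by simp) (Φ.symm q)).hasFDerivAt
      have hB' := ((smooth_br hX hB).differentiable (by simp) (Φ.symm q)).hasFDerivAt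
      have a1 : HasFDerivAt (fun q : W => Φ (A (Φ.symm q))) _ q :=
        (Φ.hasFDerivAt (x := A (Φ.symm q))).comp q (hA'.comp q Φ.symm.hasFDerivAt)
      have b1 : HasFDerivAt (fun q : W => Φ (B (Φ.symm q))) _ q :=
        (Φ.hasFDerivAt (x := B (Φ.symm q))).comp q (hB'.comp q Φ.symm.hasFDerivAt)
      unfold VectorField.lieBracket
      rw [a1.fderiv, b1.fderiv]
      simp
    rw [e]
    exact .bracket h1 h2

lemma tf_tot (hXs : ∀ i, ContDiff ℝ ∞ (X i)) (hX : TotallyNonholonomic X) :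
    TotallyNonholonomic (tf Φ X) := by
  intro q
  rw [eq_top_iff]
  intro w _
  have hv : Φ.symm w ∈ Submodule.span ℝ {v | ∃ Z, IsIteratedBracket X Z ∧ Z (Φ.symm q) = v} := by
    rw [hX (Φ.symm q)]; trivial
  have h2 := Submodule.mem_map_of_mem (f := Φ.toLinearEquiv.toLinearMap) hv
  rw [Submodule.map_span] at h2
  have e : Φ.toLinearEquiv.toLinearMap (Φ.symm w) = w := Φ.apply_symm_apply w
  rw [e] at h2
  refine Submodule.span_mono ?_ h2
  rintro _ ⟨_, ⟨Z, hZ, rfl⟩, rfl⟩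
  exact ⟨_, tf_br Φ hXs hZ, rfl⟩

variable [CompleteSpace V] [CompleteSpace W]

lemma tf_hor (hX : ∀ i, ContDiff ℝ ∞ (X i)) (x : V) (u : Control k) (γ : ℝ → V)
    (h : IsHorizontal X x u γ) : IsHorizontal (tf Φ X) (Φ x) u (fun s => Φ (γ s)) := by
  refine ⟨Φ.continuous.comp_continuousOn h.1, fun t ht => ?_⟩
  have h1 := Φ.toContinuousLinearMap.intervalIntegral_comp_comm (intble hX u h.1 ht)
  have e : (∫ s in (0:ℝ)..t, ∑ i, u i s • tf Φ X i (Φ (γ s))) =
      ∫ s in (0:ℝ)..t, Φ.toContinuousLinearMap (∑ i, u i s • X i (γ s)) := by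
    congr 1
    funext s
    rw [map_sum]
    refine Finset.sum_congr rfl fun i _ => ?_
    rw [map_smul]
    simp [tf]
  rw [e, h1]
  show Φ (γ t) = _
  rw [h.2 t ht, map_add]
  rfl

lemma tf_end (hX : ∀ i, ContDiff ℝ ∞ (X i)) (u : Control k) (q : V) :
    EndRel (tf Φ X) 0 u (Φ q) ↔ EndRel X 0 u q := by
  constructor
  · rintro ⟨γ, h, hq⟩
    have hs : ∀ i, ContDiff ℝ ∞ (tf Φ X i) := fun i => Φ.contDiff.comp ((hX i).comp Φ.symm.contDiff)
    have h1 := tf_hor Φ.symm hs 0 u γ h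
    have e : tf Φ.symm (tf Φ X) = X := by
      funext i q
      simp [tf]
    rw [e, map_zero] at h1
    exact ⟨_, h1, by simp [hq]⟩
  · rintro ⟨γ, h, rfl⟩
    have h1 := tf_hor Φ hX 0 u γ h
    rw [map_zero] at h1
    exact ⟨_, h1, rfl⟩

lemma tf_datum (hX : ∀ i, ContDiff ℝ ∞ (X i)) {q : V} {u : Control k} {E : Control k → V}
    {L : Control k →L[ℝ] V} (h : Datum X q u E L) :
    Datum (tf Φ X) (Φ q) u (fun v => Φ (E v)) (Φ.toContinuousLinearMap.comp L) := by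
  refine ⟨(tf_end Φ hX u q).2 h.reach, ?_, ?_⟩
  · filter_upwards [h.graph] with v hv y
    have h1 := tf_end Φ hX v (Φ.symm y)
    rw [Φ.apply_symm_apply] at h1
    rw [h1, hv, ContinuousLinearEquiv.symm_apply_eq]
  · exact (Φ.hasFDerivAt (x := E u)).comp u h.deriv

lemma tf_sing (h : Sing X) : Sing (tf Φ X) := by
  refine ⟨tf_frame Φ h.1, tf_tot Φ h.1.1 h.2.1, fun q => ?_⟩
  obtain ⟨u, E, L, hD, hL⟩ := h.2.2 (Φ.symm q)
  refine ⟨u, _, _, by have := tf_datum Φ h.1.1 hD; rwa [Φ.apply_symm_apply] at this, ?_⟩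
  intro hs
  apply hL
  intro v
  obtain ⟨w, hw⟩ := hs (Φ v)
  exact ⟨w, Φ.injective hw⟩

/-- rank `m`, dimension `n` -/
def SingIn (m n : ℕ) : Prop :=
  ∃ (V : Type) (_ : NormedAddCommGroup V) (_ : NormedSpace ℝ V) (_ : FiniteDimensional ℝ V),
    Module.finrank ℝ V = n ∧ ∃ X : Fin m → V → V, Sing X

def GoodIn (m n : ℕ) : Prop :=
  ∃ (V : Type) (_ : NormedAddCommGroup V) (_ : NormedSpace ℝ V) (_ : FiniteDimensional ℝ V),
    Module.finrank ℝ V = n ∧ ∃ X : Fin m → V → V, Good X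

lemma SingIn.good {m n : ℕ} (h : SingIn m n) : GoodIn m n := by
  obtain ⟨V, _, _, _, hn, X, hX⟩ := h
  refine ⟨V, inferInstance, inferInstance, inferInstance, hn, X, hX.1, hX.2.1, fun q => ?_⟩
  obtain ⟨u, E, L, h1, _⟩ := hX.2.2 q
  exact ⟨u, E, L, h1⟩

lemma SingIn.prod {m n m' n' : ℕ} (h : SingIn m n) (h' : GoodIn m' n') :
    SingIn (m + m') (n + n') := by
  obtain ⟨V, _, _, _, hn, X, hX⟩ := h
  obtain ⟨W, _, _, _, hn', Y, hY⟩ := h'
  have : CompleteSpace V := FiniteDimensional.complete ℝ V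
  have : CompleteSpace W := FiniteDimensional.complete ℝ W
  refine ⟨V × W, inferInstance, inferInstance, inferInstance, ?_, pf X Y, frame hX.1 hY.1,
    tot hX.1.1 hY.1.1 hX.2.1 hY.2.1, fun q => ?_⟩
  · rw [Module.finrank_prod, hn, hn']
  · obtain ⟨u, E, L, h1, h2⟩ := hX.2.2 q.1
    obtain ⟨u', E', L', h1'⟩ := hY.2.2 q.2
    exact ⟨_, _, _, h1.prod hX.1.1 hY.1.1 h1', not_surj h2 L'⟩

lemma GoodIn.prod {m n m' n' : ℕ} (h : GoodIn m n) (h' : GoodIn m' n') :
    GoodIn (m + m') (n + n') := by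
  obtain ⟨V, _, _, _, hn, X, hX⟩ := h
  obtain ⟨W, _, _, _, hn', Y, hY⟩ := h'
  have : CompleteSpace V := FiniteDimensional.complete ℝ V
  have : CompleteSpace W := FiniteDimensional.complete ℝ W
  refine ⟨V × W, inferInstance, inferInstance, inferInstance, ?_, pf X Y, frame hX.1 hY.1,
    tot hX.1.1 hY.1.1 hX.2.1 hY.2.1, fun q => ?_⟩
  · rw [Module.finrank_prod, hn, hn']
  · obtain ⟨u, E, L, h1⟩ := hX.2.2 q.1
    obtain ⟨u', E', L', h1'⟩ := hY.2.2 q.2
    exact ⟨_, _, _, h1.prod hX.1.1 hY.1.1 h1'⟩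

lemma good_k (k : ℕ) : GoodIn k k :=
  ⟨(Fin k → ℝ) × (Fin 0 → ℝ), inferInstance, inferInstance, inferInstance, by simp, _,
    good_euclid k⟩

lemma good_three : GoodIn 2 3 :=
  ⟨(Fin 2 → ℝ) × (Fin 1 → ℝ), inferInstance, inferInstance, inferInstance, by simp, _,
    good_heis⟩

lemma sing_four : SingIn 2 4 := by
  obtain ⟨X, h1, h2, h3, _⟩ := result
  refine ⟨(Fin 2 → ℝ) × (Fin 2 → ℝ), inferInstance, inferInstance, inferInstance, by simp, X,
    h1, h2, fun q => ?_⟩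
  have hq : q ∈ Abn X 0 := by rw [h3]; trivial
  obtain ⟨u, hu, E, L, hE, hL, hs⟩ := hq
  exact ⟨u, E, L, ⟨hu, hE, hL⟩, hs⟩

lemma sing_even (a : ℕ) : SingIn (2 * (a + 1)) (4 * (a + 1)) := by
  induction a with
  | zero => exact sing_four
  | succ a ih => exact ih.prod sing_four.good

lemma sing_all {m n : ℕ} (h1 : m + 2 ≤ n) (h2 : n + 1 ≤ 2 * m ∨ (n = 2 * m ∧ Even m)) :
    SingIn m n := by
  rcases Nat.even_or_odd' (n - m) with ⟨a, ha | ha⟩
  · obtain ⟨b, rfl⟩ : ∃ b, a = b + 1 := ⟨a - 1, by omega⟩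
    have := (sing_even b).prod (good_k (m - (n - m)))
    have e1 : 2 * (b + 1) + (m - (n - m)) = m := by omega
    have e2 : 4 * (b + 1) + (m - (n - m)) = n := by omega
    rwa [e1, e2] at this
  · have hm : n + 1 ≤ 2 * m := by
      rcases h2 with h | ⟨h, c, hc⟩
      · exact h
      · omega
    obtain ⟨b, rfl⟩ : ∃ b, a = b + 1 := ⟨a - 1, by omega⟩
    have := (sing_even b).prod (good_three.prod (good_k (m - (n - m) - 1)))
    have e1 : 2 * (b + 1) + (2 + (m - (n - m) - 1)) = m := by omega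
    have e2 : 4 * (b + 1) + (3 + (m - (n - m) - 1)) = n := by omega
    rwa [e1, e2] at this

theorem sing_Rn {m n : ℕ} (h1 : m + 2 ≤ n) (h2 : n + 1 ≤ 2 * m ∨ (n = 2 * m ∧ Even m)) :
    ∃ X : Fin m → (Fin n → ℝ) → (Fin n → ℝ), Sing X := by
  obtain ⟨V, _, _, _, hn, X, hX⟩ := sing_all h1 h2
  have : CompleteSpace V := FiniteDimensional.complete ℝ V
  let Φ : V ≃L[ℝ] (Fin n → ℝ) := ContinuousLinearEquiv.ofFinrankEq (by rw [hn]; simp)
  exact ⟨_, tf_sing Φ hX⟩

end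

end Pool.Agent.Y469.SD
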